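import Mathlib

/-! A Tauberian theorem: a square integrable function (up to a function tending to zero) which is slowly
increasing tends to zero. -/

set_option autoImplicit false

namespace Pool.Agent.Q195.OSC

open MeasureTheory Filter Topology Set

/-- In every interval of fixed length far out there is a point at which `g` is small. -/
theorem exists_small {g : ℝ → ℝ} (hg : IntegrableOn (fun t => g t ^ 2) (Ioi 1)) {h η : ℝ}
    (hh : 0 < h) (hη : 0 < η) : ∀ᶠ t : ℝ in atTop, ∃ u, t ≤ u ∧ u ≤ t + h ∧ |g u| ≤ η := by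
  have h1 : Tendsto (fun T : ℝ => ∫ x in (1 : ℝ)..T, g x ^ 2) atTop (𝓝 (∫ x in Ioi 1, g x ^ 2)) :=
    intervalIntegral_tendsto_integral_Ioi 1 hg tendsto_id
  have h2 : Tendsto (fun T : ℝ => ∫ x in (1 : ℝ)..(T + h), g x ^ 2) atTop
      (𝓝 (∫ x in Ioi 1, g x ^ 2)) := h1.comp (tendsto_atTop_add_const_right _ h tendsto_id)
  have h3 := h2.sub h1
  rw [sub_self] at h3
  filter_upwards [h3.eventually (gt_mem_nhds (show 0 < η ^ 2 * h by positivity)),
    eventually_ge_atTop 1] with t ht ht1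
  by_contra hcon
  push Not at hcon
  have i1 : ∀ a b : ℝ, 1 ≤ a → a ≤ b → IntervalIntegrable (fun x => g x ^ 2) volume a b := by
    intro a b ha hab
    rw [intervalIntegrable_iff_integrableOn_Ioc_of_le hab]
    exact hg.mono_set fun x hx => lt_of_le_of_lt ha hx.1
  have h4 : (∫ x in (1 : ℝ)..(t + h), g x ^ 2) - ∫ x in (1 : ℝ)..t, g x ^ 2 =
      ∫ x in t..(t + h), g x ^ 2 := by
    rw [← intervalIntegral.integral_add_adjacent_intervals (i1 1 t le_rfl ht1)
      (i1 t (t + h) ht1 (by linarith))]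
    ring
  rw [h4] at ht
  have h5 : ∫ _x in t..(t + h), η ^ 2 ≤ ∫ x in t..(t + h), g x ^ 2 := by
    refine intervalIntegral.integral_mono_on (by linarith) intervalIntegrable_const
      (i1 t (t + h) ht1 (by linarith)) fun x hx => ?_
    have h6 := hcon x hx.1 hx.2
    rw [← sq_abs (g x)]
    exact pow_le_pow_left₀ hη.le h6.le 2
  rw [intervalIntegral.integral_const, smul_eq_mul] at h5
  have : (t + h - t) * η ^ 2 = η ^ 2 * h := by ring
  linarith

/-- **Slowly increasing functions.** -/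
theorem taub {f g : ℝ → ℝ} (hg : IntegrableOn (fun t => g t ^ 2) (Ioi 1))
    (hfg : Tendsto (fun t => f t - g t) atTop (𝓝 0))
    (hs : ∀ ε : ℝ, 0 < ε → ∃ h : ℝ, 0 < h ∧ ∀ᶠ t : ℝ in atTop, ∀ u : ℝ, t ≤ u → u ≤ t + h →
      f u ≤ f t + ε) : Tendsto f atTop (𝓝 0) := by
  rw [Metric.tendsto_nhds]
  intro ε hε
  obtain ⟨h, hh, hs1⟩ := hs (ε / 4) (by linarith)
  have hd : ∀ᶠ t : ℝ in atTop, |f t - g t| ≤ ε / 8 := by
    have := (Metric.tendsto_nhds.1 hfg) (ε / 8) (by linarith)
    filter_upwards [this] with t ht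
    rw [Real.dist_eq, sub_zero] at ht
    exact ht.le
  obtain ⟨t0, ht0⟩ := eventually_atTop.1 ((hs1.and hd).and
    (exists_small hg hh (show 0 < ε / 8 by linarith)))
  filter_upwards [eventually_ge_atTop (t0 + h)] with t ht
  -- the point on the left
  obtain ⟨u, u1, u2, u3⟩ := (ht0 (t - h) (by linarith)).2
  have hu := ht0 u (by linarith)
  have a1 := hu.1.1 t (by linarith) (by linarith)
  have a2 := abs_le.1 hu.1.2
  have a3 := abs_le.1 u3
  -- the point on the right
  obtain ⟨v, v1, v2, v3⟩ := (ht0 t (by linarith)).2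
  have b1 := (ht0 t (by linarith)).1.1 v v1 v2
  have b2 := abs_le.1 (ht0 v (by linarith)).1.2
  have b3 := abs_le.1 v3
  rw [Real.dist_eq, sub_zero, abs_lt]
  constructor <;> linarith [a2.1, a2.2, a3.1, a3.2, b2.1, b2.2, b3.1, b3.2]

/-- A slowly increasing function grows at most linearly. -/
theorem linear_of_slow {f : ℝ → ℝ} {h : ℝ} (hh : 0 < h)
    (hs : ∀ᶠ t : ℝ in atTop, ∀ u : ℝ, t ≤ u → u ≤ t + h → f u ≤ f t + 1) :
    ∃ K : ℝ, ∀ᶠ t : ℝ in atTop, f t ≤ K * t := by
  obtain ⟨t0, ht0⟩ := eventually_atTop.1 hs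
  set s : ℝ := max t0 1 with hs'
  have hs0 : t0 ≤ s := le_max_left _ _
  have hs1 : 1 ≤ s := le_max_right _ _
  have key : ∀ n : ℕ, ∀ t : ℝ, s ≤ t → t ≤ s + n * h → f t ≤ f s + n := by
    intro n
    induction n with
    | zero =>
      intro t h1 h2
      have : t = s := by
        simp only [Nat.cast_zero, zero_mul, add_zero] at h2
        linarith
      rw [this]
      simp
    | succ n ih =>
      intro t h1 h2
      push_cast at h2 ⊢
      rcases le_or_gt t (s + n * h) with h3 | h3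
      · have := ih t h1 h3
        linarith
      · have h4 := ih (s + n * h) (by nlinarith [(Nat.cast_nonneg n : (0 : ℝ) ≤ n)]) le_rfl
        have h5 := ht0 (s + n * h) (by nlinarith [(Nat.cast_nonneg n : (0 : ℝ) ≤ n)]) t h3.le
          (by linarith)
        linarith
  refine ⟨|f s| + (1 + 1 / h), ?_⟩
  filter_upwards [eventually_ge_atTop s] with t ht
  set n : ℕ := ⌈(t - s) / h⌉₊ with hn
  have h1 : (t - s) / h ≤ n := Nat.le_ceil _
  have h2 : (n : ℝ) < (t - s) / h + 1 := Nat.ceil_lt_add_one (div_nonneg (by linarith) hh.le)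
  rw [div_le_iff₀ hh] at h1
  have h3 := key n t ht (by linarith)
  have h4 : (t - s) / h ≤ 1 / h * t := by
    rw [div_mul_eq_mul_div, one_mul]
    exact div_le_div_of_nonneg_right (by linarith) hh.le
  have h5 : f s ≤ |f s| * t := by
    have := le_abs_self (f s)
    nlinarith [abs_nonneg (f s)]
  nlinarith

end Pool.Agent.Q195.OSC
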