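import Pool.Agent.TH270.MS.EQ2

/-! The increments of the logarithm of the product of Birch and Swinnerton-Dyer and the sums of the `a_p`. -/

set_option autoImplicit false

namespace Pool.Agent.Q195.OSC

open MeasureTheory Filter Topology Set
open Pool.Agent.W263.BSD (GoodPrime pointCount bsdProduct bsdProduct_pos)

/-! ### Abel summation -/

theorem abel_low {c w : ℕ → ℝ} {K : ℝ} {m : ℕ} (hw : ∀ n, m < n → w (n + 1) ≤ w n)
    (hw0 : ∀ n, m < n → 0 ≤ w n) :
    ∀ k : ℕ, m ≤ k → (∀ j, m ≤ j → j ≤ k → -K ≤ ∑ n ∈ Finset.Ioc m j, c n) →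
      -K * w (m + 1) ≤ ∑ n ∈ Finset.Ioc m k, c n * w n := by
  have key : ∀ k : ℕ, m ≤ k → (∀ j, m ≤ j → j ≤ k → -K ≤ ∑ n ∈ Finset.Ioc m j, c n) →
      -K * (w (m + 1) - w (k + 1)) ≤ (∑ n ∈ Finset.Ioc m k, c n * w n) -
        (∑ n ∈ Finset.Ioc m k, c n) * w (k + 1) := by
    intro k hk
    induction k, hk using Nat.le_induction with
    | base => intro _; simp
    | succ k hk ih =>
      intro h
      have h1 := ih fun j h1 h2 => h j h1 (by omega)
      have h2 := h (k + 1) (by omega) le_rfl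
      rw [Finset.sum_Ioc_succ_top hk] at h2 ⊢
      rw [Finset.sum_Ioc_succ_top hk]
      have h3 := hw (k + 1) (by omega)
      nlinarith
  intro k hk h
  have h1 := key k hk h
  have h2 := h k hk le_rfl
  have h3 := hw0 (k + 1) (by omega)
  nlinarith

theorem abel_abs {c w : ℕ → ℝ} {K : ℝ} {m : ℕ} (hw : ∀ n, m < n → w n ≤ w (n + 1))
    (hw0 : ∀ n, m < n → 0 ≤ w n) :
    ∀ k : ℕ, m ≤ k → (∀ j, m ≤ j → j ≤ k → |∑ n ∈ Finset.Ioc m j, c n| ≤ K) →
      |∑ n ∈ Finset.Ioc m k, c n * w n| ≤ 2 * K * w (k + 1) := by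
  have key : ∀ k : ℕ, m ≤ k → (∀ j, m ≤ j → j ≤ k → |∑ n ∈ Finset.Ioc m j, c n| ≤ K) →
      |(∑ n ∈ Finset.Ioc m k, c n * w n) - (∑ n ∈ Finset.Ioc m k, c n) * w (k + 1)| ≤
        K * (w (k + 1) - w (m + 1)) := by
    intro k hk
    induction k, hk using Nat.le_induction with
    | base => intro _; simp
    | succ k hk ih =>
      intro h
      have h1 := ih fun j h1 h2 => h j h1 (by omega)
      have h2 := h (k + 1) (by omega) le_rfl
      rw [Finset.sum_Ioc_succ_top hk] at h2 ⊢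
      rw [Finset.sum_Ioc_succ_top hk]
      have h3 := hw (k + 1) (by omega)
      set S := ∑ n ∈ Finset.Ioc m k, c n with hS
      set T := ∑ n ∈ Finset.Ioc m k, c n * w n with hT
      have e : T + c (k + 1) * w (k + 1) - (S + c (k + 1)) * w (k + 1 + 1) =
          (T - S * w (k + 1)) + (S + c (k + 1)) * (w (k + 1) - w (k + 1 + 1)) := by ring
      rw [e]
      refine (abs_add_le _ _).trans ?_
      rw [abs_mul, abs_of_nonpos (show w (k + 1) - w (k + 1 + 1) ≤ 0 by linarith)]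
      have h4 : |S + c (k + 1)| * -(w (k + 1) - w (k + 1 + 1)) ≤
          K * -(w (k + 1) - w (k + 1 + 1)) := mul_le_mul_of_nonneg_right h2 (by linarith)
      linarith
  intro k hk h
  have h1 := key k hk h
  have h2 := h k hk le_rfl
  have h3 := hw0 (k + 1) (by omega)
  have h4 := hw0 (m + 1) (by omega)
  have hK : 0 ≤ K := (abs_nonneg _).trans h2
  have h5 : |(∑ n ∈ Finset.Ioc m k, c n) * w (k + 1)| ≤ K * w (k + 1) := by
    rw [abs_mul, abs_of_nonneg h3]
    exact mul_le_mul_of_nonneg_right h2 h3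
  have h6 := abs_add_le ((∑ n ∈ Finset.Ioc m k, c n * w n) - (∑ n ∈ Finset.Ioc m k, c n) * w (k + 1))
    ((∑ n ∈ Finset.Ioc m k, c n) * w (k + 1))
  rw [sub_add_cancel] at h6
  have h7 : 0 ≤ K * w (m + 1) := mul_nonneg hK h4
  linarith

/-! ### Sums over primes in `(x, λ x]` -/

/-- `∑_{x < p ≤ λ x} 1/p → 0` -/
theorem recip_small (lam : ℝ) : Tendsto (fun x : ℝ =>
    ∑ p ∈ (Finset.Ioc ⌊x⌋₊ ⌊lam * x⌋₊).filter Nat.Prime, (1 : ℝ) / p) atTop (𝓝 0) := by
  have h1 : Tendsto (fun x : ℝ => Real.log 4 * |lam| / Real.log x) atTop (𝓝 0) :=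
    tendsto_const_nhds.div_atTop Real.tendsto_log_atTop
  refine squeeze_zero_norm' ?_ h1
  filter_upwards [eventually_gt_atTop 1] with x hx
  have hx0 : 0 < x := by linarith
  have hl : 0 < Real.log x := Real.log_pos hx
  have h0 : 0 ≤ ∑ p ∈ (Finset.Ioc ⌊x⌋₊ ⌊lam * x⌋₊).filter Nat.Prime, (1 : ℝ) / p :=
    Finset.sum_nonneg fun p _ => by positivity
  rw [Real.norm_of_nonneg h0]
  have h2 : ∑ p ∈ (Finset.Ioc ⌊x⌋₊ ⌊lam * x⌋₊).filter Nat.Prime, (1 : ℝ) / p ≤
      ∑ p ∈ (Finset.Ioc ⌊x⌋₊ ⌊lam * x⌋₊).filter Nat.Prime, Real.log p * (1 / (x * Real.log x)) := by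
    refine Finset.sum_le_sum fun p hp => ?_
    have hp1 := Finset.mem_Ioc.1 (Finset.mem_filter.1 hp).1
    have hxp : x < p := (Nat.floor_lt hx0.le).1 hp1.1
    have hlp : Real.log x ≤ Real.log p := Real.log_le_log hx0 hxp.le
    have hp0 : (0 : ℝ) < p := by linarith
    rw [mul_one_div, div_le_div_iff₀ hp0 (by positivity), one_mul]
    have h3 : x * Real.log x ≤ p * Real.log p := mul_le_mul hxp.le hlp hl.le hp0.le
    linarith
  refine h2.trans ?_
  rw [← Finset.sum_mul]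
  have h3 : ∑ p ∈ (Finset.Ioc ⌊x⌋₊ ⌊lam * x⌋₊).filter Nat.Prime, Real.log p ≤
      Chebyshev.theta (|lam| * x) := by
    unfold Chebyshev.theta
    refine Finset.sum_le_sum_of_subset_of_nonneg ?_ fun p _ _ => Real.log_natCast_nonneg p
    intro p hp
    rw [Finset.mem_filter, Finset.mem_Ioc] at hp ⊢
    refine ⟨⟨hp.2.pos, hp.1.2.trans (Nat.floor_le_floor ?_)⟩, hp.2⟩
    exact mul_le_mul_of_nonneg_right (le_abs_self lam) hx0.le
  have h4 := Chebyshev.theta_le_log4_mul_x (x := |lam| * x) (by positivity)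
  have h5 : 0 ≤ 1 / (x * Real.log x) := by positivity
  calc (∑ p ∈ (Finset.Ioc ⌊x⌋₊ ⌊lam * x⌋₊).filter Nat.Prime, Real.log p) * (1 / (x * Real.log x))
      ≤ (Real.log 4 * (|lam| * x)) * (1 / (x * Real.log x)) :=
        mul_le_mul_of_nonneg_right (h3.trans h4) h5
    _ = Real.log 4 * |lam| / Real.log x := by
        field_simp

/-! ### The curve -/

variable {a b : ℤ}

/-- `a_p = p + 1 - N_p` -/
noncomputable def ap (a b : ℤ) (p : ℕ) : ℝ := (p : ℝ) - pointCount a b p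

open Classical in
/-- `∑_{m < p ≤ k} a_p` over the good primes -/
noncomputable def inc (a b : ℤ) (m k : ℕ) : ℝ :=
  ∑ p ∈ (Finset.Ioc m k).filter (GoodPrime a b), ap a b p

open Classical in
theorem inc_eq (m k : ℕ) : inc a b m k =
    ∑ n ∈ Finset.Ioc m k, (if GoodPrime a b n then ap a b n else 0) := by
  unfold inc
  rw [Finset.sum_filter]

open Classical in
theorem log_incr {x y : ℝ} (hxy : x ≤ y) :
    Real.log (bsdProduct a b y) - Real.log (bsdProduct a b x) =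
      ∑ p ∈ (Finset.Ioc ⌊x⌋₊ ⌊y⌋₊).filter (GoodPrime a b),
        Real.log (((pointCount a b p : ℝ) + 1) / p) := by
  have hlog : ∀ z : ℝ, Real.log (bsdProduct a b z) =
      ∑ p ∈ (Finset.range (⌊z⌋₊ + 1)).filter (GoodPrime a b),
        Real.log (((pointCount a b p : ℝ) + 1) / p) := by
    intro z
    unfold bsdProduct
    rw [Real.log_prod]
    intro q hq
    have hq0 : (0 : ℝ) < q := by exact_mod_cast (Finset.mem_filter.1 hq).2.1.pos
    positivity
  rw [hlog, hlog]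
  have hf : ⌊x⌋₊ ≤ ⌊y⌋₊ := Nat.floor_le_floor hxy
  have hsub : (Finset.range (⌊x⌋₊ + 1)).filter (GoodPrime a b) ⊆
      (Finset.range (⌊y⌋₊ + 1)).filter (GoodPrime a b) := by
    refine Finset.filter_subset_filter _ ?_
    intro p hp
    rw [Finset.mem_range] at hp ⊢
    omega
  rw [← Finset.sum_sdiff hsub, add_sub_cancel_right]
  refine Finset.sum_congr ?_ fun _ _ => rfl
  ext p
  simp only [Finset.mem_sdiff, Finset.mem_filter, Finset.mem_range, Finset.mem_Ioc]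
  constructor
  · rintro ⟨⟨h1, h2⟩, h3⟩
    refine ⟨⟨?_, by omega⟩, h2⟩
    by_contra h4
    exact h3 ⟨by omega, h2⟩
  · rintro ⟨⟨h1, h2⟩, h3⟩
    exact ⟨⟨by omega, h3⟩, fun h4 => by omega⟩

theorem log_near {v : ℝ} (hv : |v| ≤ 1 / 2) : |Real.log (1 - v) + v| ≤ 2 * v ^ 2 := by
  have h1 := Real.abs_log_sub_add_sum_range_le (x := v) (by linarith) 1
  simp only [Finset.range_one, Finset.sum_singleton, zero_add, pow_one, Nat.cast_zero, div_one] at h1
  rw [add_comm]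
  refine h1.trans ?_
  norm_num
  rw [div_le_iff₀ (by linarith)]
  have : 0 ≤ v ^ 2 := sq_nonneg v
  nlinarith [abs_nonneg v]

theorem term_near {p : ℕ} (hp : GoodPrime a b p) (h40 : 40 ≤ p) :
    |Real.log (((pointCount a b p : ℝ) + 1) / p) + ap a b p / p| ≤ 20 / p := by
  have hH := Pool.Agent.TH270.MS.EQ.hasse' hp
  have hp0 : (0 : ℝ) < p := by exact_mod_cast hp.1.pos
  have hp40 : (40 : ℝ) ≤ p := by exact_mod_cast h40
  set s : ℝ := √(p : ℝ) with hs
  have hs2 : s ^ 2 = p := Real.sq_sqrt hp0.le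
  have hs0 : 0 ≤ s := Real.sqrt_nonneg _
  have hs6 : 6 ≤ s := by nlinarith
  set v : ℝ := (ap a b p - 1) / p with hv
  have e1 : ((pointCount a b p : ℝ) + 1) / p = 1 - v := by
    rw [hv]
    unfold ap
    field_simp
    ring
  have hab : |ap a b p - 1| ≤ 2 * s + 1 := by
    have h1 := abs_sub (ap a b p) 1
    have h2 : |ap a b p| ≤ 2 * s := hH
    rw [abs_one] at h1
    linarith
  have hv1 : |v| ≤ (2 * s + 1) / p := by
    rw [hv, abs_div, abs_of_pos hp0]
    exact div_le_div_of_nonneg_right hab hp0.le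
  have hv2 : |v| ≤ 1 / 2 := by
    refine hv1.trans ?_
    rw [div_le_iff₀ hp0]
    nlinarith
  have h1 := log_near hv2
  have h2 : v ^ 2 ≤ 9 / p := by
    rw [← sq_abs]
    refine (pow_le_pow_left₀ (abs_nonneg _) hv1 2).trans ?_
    rw [div_pow, div_le_div_iff₀ (by positivity) hp0]
    have h3 : (2 * s + 1) ^ 2 ≤ 9 * p := by nlinarith
    nlinarith
  have e2 : Real.log (((pointCount a b p : ℝ) + 1) / p) + ap a b p / p =
      (Real.log (1 - v) + v) + 1 / p := by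
    rw [e1, hv]
    ring
  rw [e2]
  refine (abs_add_le _ _).trans ?_
  rw [abs_of_pos (show (0 : ℝ) < 1 / p by positivity)]
  have h3 : (20 : ℝ) / p = 2 * (9 / p) + 2 * (1 / p) := by ring
  have h4 : (0 : ℝ) < 1 / p := by positivity
  linarith

open Classical in
/-- the sum of the `a_p / p` -/
theorem incr_near {x y : ℝ} (hx : 40 ≤ x) (hxy : x ≤ y) :
    |(Real.log (bsdProduct a b y) - Real.log (bsdProduct a b x)) +
      ∑ n ∈ Finset.Ioc ⌊x⌋₊ ⌊y⌋₊, (if GoodPrime a b n then ap a b n else 0) * (1 / (n : ℝ))| ≤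
      20 * ∑ p ∈ (Finset.Ioc ⌊x⌋₊ ⌊y⌋₊).filter Nat.Prime, (1 : ℝ) / p := by
  rw [log_incr hxy]
  have e : ∑ n ∈ Finset.Ioc ⌊x⌋₊ ⌊y⌋₊, (if GoodPrime a b n then ap a b n else 0) * (1 / (n : ℝ)) =
      ∑ p ∈ (Finset.Ioc ⌊x⌋₊ ⌊y⌋₊).filter (GoodPrime a b), ap a b p / p := by
    rw [Finset.sum_filter]
    refine Finset.sum_congr rfl fun n _ => ?_
    split_ifs
    · ring
    · ring
  rw [e, ← Finset.sum_add_distrib]
  refine (Finset.abs_sum_le_sum_abs _ _).trans ?_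
  have h1 : ∑ p ∈ (Finset.Ioc ⌊x⌋₊ ⌊y⌋₊).filter (GoodPrime a b),
      |Real.log (((pointCount a b p : ℝ) + 1) / p) + ap a b p / p| ≤
      ∑ p ∈ (Finset.Ioc ⌊x⌋₊ ⌊y⌋₊).filter (GoodPrime a b), 20 * ((1 : ℝ) / p) := by
    refine Finset.sum_le_sum fun p hp => ?_
    have hp1 := Finset.mem_filter.1 hp
    have hp2 := Finset.mem_Ioc.1 hp1.1
    have h40 : 40 ≤ ⌊x⌋₊ := Nat.le_floor (by exact_mod_cast hx)
    refine (term_near hp1.2 (by omega)).trans (le_of_eq ?_)
    ring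
  refine h1.trans ?_
  rw [← Finset.mul_sum]
  refine mul_le_mul_of_nonneg_left ?_ (by norm_num)
  refine Finset.sum_le_sum_of_subset_of_nonneg ?_ fun p _ _ => by positivity
  intro p hp
  have hp1 := Finset.mem_filter.1 hp
  exact Finset.mem_filter.2 ⟨hp1.1, hp1.2.1⟩

end Pool.Agent.Q195.OSC
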