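import Pool.Agent.TH270.MS.EQ3
import Pool.Agent.TH949.TX.BSDW
import Pool.Agent.Q195.OSC.Taub
import Pool.Agent.Q195.OSC.Sums

/-! The one-sided criterion for the limit of the product of Birch and Swinnerton-Dyer. -/

set_option autoImplicit false

namespace Pool.Agent.Q195.OSC

open MeasureTheory Filter Topology Set
open Pool.Agent.TH942.ES
open Pool.Agent.TH270.MS
open Pool.Agent.TH270.MS.EQ
open Pool.Agent.W263.BSD (GoodPrime pointCount IsLSeries bsdProduct bsdStar bsdProduct_pos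
  bsdStar_pos rsSum)

variable {a b : ℤ} {F : ℂ → ℂ}

/-- `log P(e^t)` -/
noncomputable def phi (a b : ℤ) (t : ℝ) : ℝ := Real.log (bsdProduct a b (Real.exp t))

theorem exp_mem {lam t u : ℝ} (hlam : 1 < lam) (h : u ≤ t + Real.log lam) :
    Real.exp u ≤ lam * Real.exp t := by
  have h1 : Real.exp u ≤ Real.exp (t + Real.log lam) := Real.exp_le_exp.2 h
  rw [Real.exp_add, Real.exp_log (by linarith), mul_comm] at h1
  exact h1

open Classical in
/-- the sums with weights `1/p` -/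
theorem low_sum {x y K : ℝ} (hx : 1 ≤ x) (hK : 0 ≤ K)
    (h : ∀ z : ℝ, x ≤ z → z ≤ y → -(K * x) ≤ inc a b ⌊x⌋₊ ⌊z⌋₊) (hxy : x ≤ y) :
    -K ≤ ∑ n ∈ Finset.Ioc ⌊x⌋₊ ⌊y⌋₊, (if GoodPrime a b n then ap a b n else 0) * (1 / (n : ℝ)) := by
  have h1 := abel_low (c := fun n => if GoodPrime a b n then ap a b n else 0)
    (w := fun n => 1 / (n : ℝ)) (K := K * x) (m := ⌊x⌋₊) (fun n hn => by
      have h0 : (0 : ℝ) < n := by exact_mod_cast (by omega : 0 < n)
      exact one_div_le_one_div_of_le h0 (by push_cast; linarith))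
    (fun n _ => by positivity) ⌊y⌋₊ (Nat.floor_le_floor hxy) (fun j hj1 hj2 => by
      rw [← inc_eq]
      rcases eq_or_lt_of_le hj1 with h3 | h3
      · rw [← h3]
        have := h x le_rfl hxy
        exact this
      · have h4 := h (j : ℝ) (by
          have : x < j := (Nat.floor_lt (by linarith)).1 h3
          exact this.le) (by
          exact (Nat.le_floor_iff (by linarith)).1 hj2)
        rw [Nat.floor_natCast] at h4
        exact h4)
  refine le_trans ?_ h1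
  have h2 : x < (⌊x⌋₊ : ℝ) + 1 := Nat.lt_floor_add_one x
  have h3 : x * (1 / (((⌊x⌋₊ + 1 : ℕ) : ℝ))) ≤ 1 := by
    rw [mul_one_div, div_le_one (by positivity)]
    push_cast
    exact h2.le
  have h4 : K * (x * (1 / (((⌊x⌋₊ + 1 : ℕ) : ℝ)))) ≤ K * 1 := mul_le_mul_of_nonneg_left h3 hK
  have h5 : -(K * x) * (1 / (((⌊x⌋₊ + 1 : ℕ) : ℝ))) = -(K * (x * (1 / (((⌊x⌋₊ + 1 : ℕ) : ℝ))))) := by
    ring
  rw [h5]
  linarith

theorem slow_low (hlow : ∀ ε : ℝ, 0 < ε → ∃ lam : ℝ, 1 < lam ∧ ∀ᶠ x : ℝ in atTop, ∀ y : ℝ,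
      x ≤ y → y ≤ lam * x → -(ε * x) ≤ inc a b ⌊x⌋₊ ⌊y⌋₊) :
    ∀ ε : ℝ, 0 < ε → ∃ h : ℝ, 0 < h ∧ ∀ᶠ t : ℝ in atTop, ∀ u : ℝ, t ≤ u → u ≤ t + h →
      phi a b u ≤ phi a b t + ε := by
  classical
  intro ε hε
  obtain ⟨lam, hlam, h1⟩ := hlow (ε / 2) (by linarith)
  refine ⟨Real.log lam, Real.log_pos hlam, ?_⟩
  have h2 := (recip_small lam).eventually (gt_mem_nhds (show (0 : ℝ) < ε / 40 by linarith))
  filter_upwards [Real.tendsto_exp_atTop.eventually h1, Real.tendsto_exp_atTop.eventually h2,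
    Real.tendsto_exp_atTop.eventually_ge_atTop 40] with t ht1 ht2 ht3 u hu1 hu2
  have hxy : Real.exp t ≤ Real.exp u := Real.exp_le_exp.2 hu1
  have hyl := exp_mem hlam hu2
  have h3 := incr_near (a := a) (b := b) ht3 hxy
  have h4 := low_sum (a := a) (b := b) (x := Real.exp t) (y := Real.exp u) (K := ε / 2)
    (by linarith) (by linarith) (fun z hz1 hz2 => ht1 z hz1 (hz2.trans hyl)) hxy
  have h5 : ∑ p ∈ (Finset.Ioc ⌊Real.exp t⌋₊ ⌊Real.exp u⌋₊).filter Nat.Prime, (1 : ℝ) / p ≤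
      ∑ p ∈ (Finset.Ioc ⌊Real.exp t⌋₊ ⌊lam * Real.exp t⌋₊).filter Nat.Prime, (1 : ℝ) / p := by
    refine Finset.sum_le_sum_of_subset_of_nonneg ?_ fun p _ _ => by positivity
    refine Finset.filter_subset_filter _ (Finset.Ioc_subset_Ioc_right (Nat.floor_le_floor hyl))
  have h6 := (abs_le.1 h3).2
  unfold phi
  linarith

theorem slow_up (hup : ∀ ε : ℝ, 0 < ε → ∃ lam : ℝ, 1 < lam ∧ ∀ᶠ x : ℝ in atTop, ∀ y : ℝ,
      x ≤ y → y ≤ lam * x → inc a b ⌊x⌋₊ ⌊y⌋₊ ≤ ε * x) :
    ∀ ε : ℝ, 0 < ε → ∃ h : ℝ, 0 < h ∧ ∀ᶠ t : ℝ in atTop, ∀ u : ℝ, t ≤ u → u ≤ t + h →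
      -phi a b u ≤ -phi a b t + ε := by
  classical
  intro ε hε
  obtain ⟨lam, hlam, h1⟩ := hup (ε / 2) (by linarith)
  refine ⟨Real.log lam, Real.log_pos hlam, ?_⟩
  have h2 := (recip_small lam).eventually (gt_mem_nhds (show (0 : ℝ) < ε / 40 by linarith))
  filter_upwards [Real.tendsto_exp_atTop.eventually h1, Real.tendsto_exp_atTop.eventually h2,
    Real.tendsto_exp_atTop.eventually_ge_atTop 40] with t ht1 ht2 ht3 u hu1 hu2
  have hxy : Real.exp t ≤ Real.exp u := Real.exp_le_exp.2 hu1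
  have hyl := exp_mem hlam hu2
  have h3 := incr_near (a := a) (b := b) ht3 hxy
  have h4 : ∑ n ∈ Finset.Ioc ⌊Real.exp t⌋₊ ⌊Real.exp u⌋₊,
      (if GoodPrime a b n then ap a b n else 0) * (1 / (n : ℝ)) ≤ ε / 2 := by
    set x := Real.exp t with hx
    set y := Real.exp u with hy
    have h1 := abel_low (c := fun n => -(if GoodPrime a b n then ap a b n else 0))
      (w := fun n => 1 / (n : ℝ)) (K := ε / 2 * x) (m := ⌊x⌋₊) (fun n hn => by
        have h0 : (0 : ℝ) < n := by exact_mod_cast (by omega : 0 < n)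
        exact one_div_le_one_div_of_le h0 (by push_cast; linarith))
      (fun n _ => by positivity) ⌊y⌋₊ (Nat.floor_le_floor hxy) (fun j hj1 hj2 => by
        rw [Finset.sum_neg_distrib, ← inc_eq, neg_le_neg_iff]
        rcases eq_or_lt_of_le hj1 with h3 | h3
        · rw [← h3]
          exact ht1 x le_rfl (by nlinarith [Real.exp_pos t])
        · have hj3 : (j : ℝ) ≤ y := (Nat.le_floor_iff (by positivity)).1 hj2
          have h4 := ht1 (j : ℝ) (by
            have : x < j := (Nat.floor_lt (by positivity)).1 h3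
            exact this.le) (hj3.trans hyl)
          rw [Nat.floor_natCast] at h4
          exact h4)
    have h2 : x < (⌊x⌋₊ : ℝ) + 1 := Nat.lt_floor_add_one x
    have h3 : x * (1 / (((⌊x⌋₊ + 1 : ℕ) : ℝ))) ≤ 1 := by
      rw [mul_one_div, div_le_one (by positivity)]
      push_cast
      exact h2.le
    have h5 : -(ε / 2 * x) * (1 / (((⌊x⌋₊ + 1 : ℕ) : ℝ))) =
        -(ε / 2 * (x * (1 / (((⌊x⌋₊ + 1 : ℕ) : ℝ))))) := by
      ring
    simp only [neg_mul, Finset.sum_neg_distrib] at h1 h5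
    nlinarith
  have h5 : ∑ p ∈ (Finset.Ioc ⌊Real.exp t⌋₊ ⌊Real.exp u⌋₊).filter Nat.Prime, (1 : ℝ) / p ≤
      ∑ p ∈ (Finset.Ioc ⌊Real.exp t⌋₊ ⌊lam * Real.exp t⌋₊).filter Nat.Prime, (1 : ℝ) / p := by
    refine Finset.sum_le_sum_of_subset_of_nonneg ?_ fun p _ _ => by positivity
    refine Finset.filter_subset_filter _ (Finset.Ioc_subset_Ioc_right (Nat.floor_le_floor hyl))
  have h6 := (abs_le.1 h3).1
  unfold phi
  linarith

/-- a slowly increasing logarithm excludes zeros -/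
theorem no_zero_up (hF : IsLSeries a b F) {K : ℝ} (h : ∀ᶠ t : ℝ in atTop, phi a b t ≤ K * t) :
    ∀ s : ℂ, 1 < s.re → F s ≠ 0 := by
  intro s hs h0
  set c : ℝ := (s.re - 1) / 2 with hc
  have hc0 : 0 < c := by rw [hc]; linarith
  have h1 : ∀ᶠ x : ℝ in atTop, Real.log (bsdProduct a b x) ≤ K * Real.log x := by
    filter_upwards [Real.tendsto_log_atTop.eventually h, eventually_gt_atTop 0] with x hx hx0
    unfold phi at hx
    rwa [Real.exp_log hx0] at hx
  have h2 : ∀ᶠ x : ℝ in atTop, K * Real.log x ≤ x ^ c := by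
    have := (isLittleO_log_rpow_atTop hc0).bound (show (0 : ℝ) < 1 / (|K| + 1) by positivity)
    filter_upwards [this, eventually_ge_atTop 1] with x hx hx1
    have hl : 0 ≤ Real.log x := Real.log_nonneg hx1
    have hp : 0 ≤ x ^ c := Real.rpow_nonneg (by linarith) c
    rw [Real.norm_of_nonneg hl, Real.norm_of_nonneg hp] at hx
    have h3 : (|K| + 1) * Real.log x ≤ x ^ c := by
      calc (|K| + 1) * Real.log x ≤ (|K| + 1) * (1 / (|K| + 1) * x ^ c) :=
            mul_le_mul_of_nonneg_left hx (by positivity)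
        _ = x ^ c := by field_simp
    have h4 : K * Real.log x ≤ (|K| + 1) * Real.log x :=
      mul_le_mul_of_nonneg_right (by linarith [le_abs_self K]) hl
    linarith
  obtain ⟨x0, hx0⟩ := eventually_atTop.1 (h1.and h2)
  have h3 := Pool.Agent.TH949.TX.bsd_up hF (c := c) hc0.le (ρ := s) (by rw [hc]; linarith) h0
    (δ := 1 / 2) (C := 1) (by norm_num)
  have h4 : ∀ᶠ X : ℝ in atTop, x0 ≤ X ^ (1 - (1 / 2) : ℝ) :=
    (tendsto_rpow_atTop (by norm_num)).eventually_ge_atTop x0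
  obtain ⟨X, hX1, hX2⟩ := (h3.and h4).exists
  obtain ⟨x, k1, -, -, k4⟩ := hX1
  have h5 := hx0 x (hX2.trans k1)
  linarith [h5.1, h5.2]

theorem no_zero_down (hF : IsLSeries a b F) (hreal : ∀ s : ℝ, 1 < s → F s ≠ 0) {K : ℝ}
    (h : ∀ᶠ t : ℝ in atTop, -phi a b t ≤ K * t) :
    ∀ s : ℂ, 1 < s.re → F s ≠ 0 := by
  intro s hs h0
  set c : ℝ := (s.re - 1) / 2 with hc
  have hc0 : 0 < c := by rw [hc]; linarith
  have h1 : ∀ᶠ x : ℝ in atTop, -Real.log (bsdProduct a b x) ≤ K * Real.log x := by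
    filter_upwards [Real.tendsto_log_atTop.eventually h, eventually_gt_atTop 0] with x hx hx0
    unfold phi at hx
    rwa [Real.exp_log hx0] at hx
  have h2 : ∀ᶠ x : ℝ in atTop, K * Real.log x ≤ x ^ c := by
    have := (isLittleO_log_rpow_atTop hc0).bound (show (0 : ℝ) < 1 / (|K| + 1) by positivity)
    filter_upwards [this, eventually_ge_atTop 1] with x hx hx1
    have hl : 0 ≤ Real.log x := Real.log_nonneg hx1
    have hp : 0 ≤ x ^ c := Real.rpow_nonneg (by linarith) c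
    rw [Real.norm_of_nonneg hl, Real.norm_of_nonneg hp] at hx
    have h3 : (|K| + 1) * Real.log x ≤ x ^ c := by
      calc (|K| + 1) * Real.log x ≤ (|K| + 1) * (1 / (|K| + 1) * x ^ c) :=
            mul_le_mul_of_nonneg_left hx (by positivity)
        _ = x ^ c := by field_simp
    have h4 : K * Real.log x ≤ (|K| + 1) * Real.log x :=
      mul_le_mul_of_nonneg_right (by linarith [le_abs_self K]) hl
    linarith
  obtain ⟨x0, hx0⟩ := eventually_atTop.1 (h1.and h2)
  have h3 := Pool.Agent.TH949.TX.bsd_down hF (c := c) hc0.le (fun s hs => hreal s (by linarith))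
    (ρ := s) (by rw [hc]; linarith) h0 (δ := 1 / 2) (C := 1) (by norm_num)
  have h4 : ∀ᶠ X : ℝ in atTop, x0 ≤ X ^ (1 - (1 / 2) : ℝ) :=
    (tendsto_rpow_atTop (by norm_num)).eventually_ge_atTop x0
  obtain ⟨X, hX1, hX2⟩ := (h3.and h4).exists
  obtain ⟨x, k1, -, -, k4⟩ := hX1
  have h5 := hx0 x (hX2.trans k1)
  linarith [h5.1, h5.2]

/-- the mean square law without constants -/
theorem exists_dev (hΔ : 4 * a ^ 3 + 27 * b ^ 2 ≠ 0) (hF : IsLSeries a b F)
    (hrs : Tendsto (rsSum a b) atTop (𝓝 0)) {η C₀ : ℝ} {κ : ℕ} (hη : 0 < η)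
    (hg : ∀ s : ℂ, 1 - η < s.re → ‖F s‖ ≤ C₀ * (1 + ‖s‖) ^ κ) {r : ℕ}
    (hr : analyticOrderAt F 1 = r) (hz : ∀ s : ℂ, 1 < s.re → F s ≠ 0) :
    ∃ C : ℝ, 0 < C ∧ ∃ g : ℝ → ℝ, IntegrableOn (fun t => g t ^ 2) (Ioi 1) ∧
      Tendsto (fun t => (phi a b t - r * Real.log t - Real.log C) - g t) atTop (𝓝 0) := by
  have H := curve_mc hF hη hg
  have h1 : (∀ s : ℂ, 0 < s.re → F (1 + s) ≠ 0) ∧ ∃ m : ℕ, (r : ℝ) = m ∧
      meromorphicOrderAt (fun s => F (1 + s)) 0 = (m : ℤ) :=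
    ⟨fun s hs => hz _ (by simpa using hs), r, rfl, (mero_iff hF).2 hr⟩
  obtain ⟨A, hA, hI⟩ : ∃ A : ℝ, 0 < A ∧ IntegrableOn (fun Y : ℝ =>
    DvR (nQ a b) (alQ a b) r A Y ^ 2 / Y) (Ioi (Real.exp 1)) := ((H.tfae_order_real r).out 0 1).1 h1
  set C : ℝ := √2 * Real.exp (r * Real.eulerMascheroniConstant) / A with hC
  have hC0 : 0 < C := by rw [hC]; positivity
  have hAC : AC r C = A := by
    unfold AC
    rw [hC]
    field_simp
  refine ⟨C, hC0, fun t => -DvR (nQ a b) (alQ a b) r A (Real.exp t), ?_, ?_⟩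
  · rw [← cov_int]
    refine hI.congr_fun (fun X hX => ?_) measurableSet_Ioi
    have hX0 : 0 < X := (Real.exp_pos 1).trans hX
    simp only [neg_sq, Real.exp_log hX0]
  · obtain ⟨K, hK⟩ := star_close a b
    have h2 : Tendsto (fun x => Real.log (bsdStar a b x) + Pl (nQ a b) (alQ a b) x) atTop
        (𝓝 0) := by
      have h3 : Tendsto (fun x : ℝ => K * x ^ (-(1 / 12 : ℝ))) atTop (𝓝 0) := by
        have := (tendsto_rpow_neg_atTop (y := 1 / 12) (by norm_num)).const_mul K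
        rwa [mul_zero] at this
      refine squeeze_zero_norm' ?_ h3
      filter_upwards [eventually_ge_atTop (Real.exp 1)] with x hx
      rw [Real.norm_eq_abs]
      exact hK x hx
    have h4 := (h2.sub (corr_lim hΔ hrs)).sub (tendsto_const_nhds (x := Real.log 2 / 2))
    rw [zero_sub, neg_neg, sub_self] at h4
    have h5 := h4.comp Real.tendsto_exp_atTop
    refine h5.congr fun t => ?_
    have h6 := dvR_AC (a := a) (b := b) (ρ := r) hC0 (Real.exp t)
    rw [hAC] at h6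
    simp only [Function.comp, phi]
    rw [h6]
    simp only [Real.log_exp]
    ring

theorem phi_tendsto_iff {r : ℕ} {C : ℝ} (hC : 0 < C) :
    Tendsto (fun t => phi a b t - r * Real.log t - Real.log C) atTop (𝓝 0) ↔
      Tendsto (fun x => bsdProduct a b x / Real.log x ^ r) atTop (𝓝 C) := by
  have e : ∀ᶠ x : ℝ in atTop, phi a b (Real.log x) - r * Real.log (Real.log x) - Real.log C =
      Real.log (bsdProduct a b x / Real.log x ^ r) - Real.log C := by
    filter_upwards [eventually_gt_atTop 1] with x hx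
    have hl : 0 < Real.log x := Real.log_pos hx
    unfold phi
    rw [Real.exp_log (by linarith), Real.log_div (bsdProduct_pos x).ne' (by positivity),
      Real.log_pow]
  constructor
  · intro h
    have h1 := h.comp Real.tendsto_log_atTop
    have h2 : Tendsto (fun x => Real.log (bsdProduct a b x / Real.log x ^ r)) atTop
        (𝓝 (Real.log C)) := by
      rw [← tendsto_sub_nhds_zero_iff]
      exact h1.congr' e
    have h3 := (Real.continuous_exp.tendsto _).comp h2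
    rw [Real.exp_log hC] at h3
    refine h3.congr' ?_
    filter_upwards [eventually_gt_atTop 1] with x hx
    have hl : 0 < Real.log x := Real.log_pos hx
    have := bsdProduct_pos (a := a) (b := b) x
    exact Real.exp_log (by positivity)
  · intro h
    have h2 : Tendsto (fun x => Real.log (bsdProduct a b x / Real.log x ^ r)) atTop
        (𝓝 (Real.log C)) := (Real.continuousAt_log hC.ne').tendsto.comp h
    rw [← tendsto_sub_nhds_zero_iff] at h2
    have h3 := (h2.congr' (e.mono fun x hx => hx.symm)).comp Real.tendsto_exp_atTop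
    refine h3.congr fun t => ?_
    simp only [Function.comp, Real.log_exp]

/-- the lower condition gives the limit -/
theorem lim_of_low (hΔ : 4 * a ^ 3 + 27 * b ^ 2 ≠ 0) (hF : IsLSeries a b F)
    (hrs : Tendsto (rsSum a b) atTop (𝓝 0)) {η C₀ : ℝ} {κ : ℕ} (hη : 0 < η)
    (hg : ∀ s : ℂ, 1 - η < s.re → ‖F s‖ ≤ C₀ * (1 + ‖s‖) ^ κ) {r : ℕ}
    (hr : analyticOrderAt F 1 = r)
    (hlow : ∀ ε : ℝ, 0 < ε → ∃ lam : ℝ, 1 < lam ∧ ∀ᶠ x : ℝ in atTop, ∀ y : ℝ,
      x ≤ y → y ≤ lam * x → -(ε * x) ≤ inc a b ⌊x⌋₊ ⌊y⌋₊) :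
    ∃ C : ℝ, C ≠ 0 ∧ Tendsto (fun x => bsdProduct a b x / Real.log x ^ r) atTop (𝓝 C) := by
  have hs := slow_low hlow
  obtain ⟨h, hh, h1⟩ := hs 1 one_pos
  obtain ⟨K, hK⟩ := linear_of_slow hh h1
  obtain ⟨C, hC, g, hg1, hg2⟩ := exists_dev hΔ hF hrs hη hg hr (no_zero_up hF hK)
  refine ⟨C, hC.ne', (phi_tendsto_iff hC).1 (taub hg1 hg2 fun ε hε => ?_)⟩
  obtain ⟨h, hh, h1⟩ := hs ε hε
  refine ⟨h, hh, ?_⟩
  filter_upwards [h1, eventually_gt_atTop 0] with t ht ht0 u hu1 hu2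
  have h2 := ht u hu1 hu2
  have h3 : Real.log t ≤ Real.log u := Real.log_le_log ht0 hu1
  have h4 : (r : ℝ) * Real.log t ≤ r * Real.log u := mul_le_mul_of_nonneg_left h3 (Nat.cast_nonneg r)
  linarith

/-- the upper condition gives the limit if there are no real zeros -/
theorem lim_of_up (hΔ : 4 * a ^ 3 + 27 * b ^ 2 ≠ 0) (hF : IsLSeries a b F)
    (hreal : ∀ s : ℝ, 1 < s → F s ≠ 0)
    (hrs : Tendsto (rsSum a b) atTop (𝓝 0)) {η C₀ : ℝ} {κ : ℕ} (hη : 0 < η)
    (hg : ∀ s : ℂ, 1 - η < s.re → ‖F s‖ ≤ C₀ * (1 + ‖s‖) ^ κ) {r : ℕ}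
    (hr : analyticOrderAt F 1 = r)
    (hup : ∀ ε : ℝ, 0 < ε → ∃ lam : ℝ, 1 < lam ∧ ∀ᶠ x : ℝ in atTop, ∀ y : ℝ,
      x ≤ y → y ≤ lam * x → inc a b ⌊x⌋₊ ⌊y⌋₊ ≤ ε * x) :
    ∃ C : ℝ, C ≠ 0 ∧ Tendsto (fun x => bsdProduct a b x / Real.log x ^ r) atTop (𝓝 C) := by
  have hs := slow_up hup
  obtain ⟨h, hh, h1⟩ := hs 1 one_pos
  obtain ⟨K, hK⟩ := linear_of_slow (f := fun t => -phi a b t) hh h1
  obtain ⟨C, hC, g, hg1, hg2⟩ := exists_dev hΔ hF hrs hη hg hr (no_zero_down hF hreal hK)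
  refine ⟨C, hC.ne', (phi_tendsto_iff hC).1 ?_⟩
  have h2 : Tendsto (fun t => -(phi a b t - r * Real.log t - Real.log C)) atTop (𝓝 0) := by
    refine taub (g := fun t => -g t) (by simpa only [neg_sq] using hg1) ?_ fun ε hε => ?_
    · have := hg2.neg
      rw [neg_zero] at this
      refine this.congr fun t => ?_
      ring
    · obtain ⟨h, hh, h1⟩ := hs (ε / 2) (by linarith)
      refine ⟨h, hh, ?_⟩
      have h3 : Tendsto (fun t : ℝ => r * (h / t)) atTop (𝓝 0) := by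
        have := (tendsto_const_nhds (x := h)).div_atTop tendsto_id
        have := this.const_mul (r : ℝ)
        rwa [mul_zero] at this
      filter_upwards [h1, eventually_gt_atTop 0, h3.eventually
        (gt_mem_nhds (show (0 : ℝ) < ε / 2 by linarith))] with t ht ht0 ht2 u hu1 hu2
      have h2 := ht u hu1 hu2
      have h4 : Real.log u - Real.log t ≤ h / t := by
        rw [← Real.log_div (by linarith) ht0.ne']
        refine (Real.log_le_sub_one_of_pos (div_pos (by linarith) ht0)).trans ?_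
        rw [div_sub_one ht0.ne']
        exact div_le_div_of_nonneg_right (by linarith) ht0.le
      have h5 : (r : ℝ) * (Real.log u - Real.log t) ≤ r * (h / t) :=
        mul_le_mul_of_nonneg_left h4 (Nat.cast_nonneg r)
      linarith
  have h3 := h2.neg
  rw [neg_zero] at h3
  refine h3.congr fun t => ?_
  ring

open Classical in
/-- the limit gives small sums -/
theorem small_of_lim {r : ℕ} {C : ℝ} (hC : 0 < C)
    (h : Tendsto (fun x => bsdProduct a b x / Real.log x ^ r) atTop (𝓝 C))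
    {ε lam : ℝ} (hε : 0 < ε) (hlam : 1 < lam) :
    ∀ᶠ x : ℝ in atTop, ∀ y : ℝ, x ≤ y → y ≤ lam * x → |inc a b ⌊x⌋₊ ⌊y⌋₊| ≤ ε * x := by
  set δ : ℝ := ε / (40 * lam) with hδ
  have hδ0 : 0 < δ := by rw [hδ]; positivity
  have h1 := (phi_tendsto_iff hC).2 h
  have h2 : ∀ᶠ t : ℝ in atTop, |phi a b t - r * Real.log t - Real.log C| ≤ δ := by
    have := (Metric.tendsto_nhds.1 h1) δ hδ0
    filter_upwards [this] with t ht
    rw [Real.dist_eq, sub_zero] at ht
    exact ht.le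
  obtain ⟨t0, ht0⟩ := eventually_atTop.1 h2
  have h3 : Tendsto (fun x : ℝ => r * (Real.log lam / Real.log x)) atTop (𝓝 0) := by
    have := (tendsto_const_nhds (x := Real.log lam)).div_atTop Real.tendsto_log_atTop
    have := this.const_mul (r : ℝ)
    rwa [mul_zero] at this
  filter_upwards [h3.eventually (gt_mem_nhds hδ0), Real.tendsto_log_atTop.eventually_ge_atTop t0,
    eventually_ge_atTop 40, (recip_small lam).eventually
      (gt_mem_nhds (show (0 : ℝ) < δ / 20 by positivity))] with x h4 h5 h6 h7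
  have hx0 : 0 < x := by linarith
  have hlx : 0 < Real.log x := Real.log_pos (by linarith)
  -- all increments of the logarithm are small
  have key : ∀ z : ℝ, x ≤ z → z ≤ lam * x →
      |∑ n ∈ Finset.Ioc ⌊x⌋₊ ⌊z⌋₊, (if GoodPrime a b n then ap a b n else 0) * (1 / (n : ℝ))| ≤
        4 * δ := by
    intro z hz1 hz2
    have hz0 : 0 < z := by linarith
    have e1 := incr_near (a := a) (b := b) h6 hz1
    have e2 : ∑ p ∈ (Finset.Ioc ⌊x⌋₊ ⌊z⌋₊).filter Nat.Prime, (1 : ℝ) / p ≤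
        ∑ p ∈ (Finset.Ioc ⌊x⌋₊ ⌊lam * x⌋₊).filter Nat.Prime, (1 : ℝ) / p := by
      refine Finset.sum_le_sum_of_subset_of_nonneg ?_ fun p _ _ => by positivity
      refine Finset.filter_subset_filter _ (Finset.Ioc_subset_Ioc_right (Nat.floor_le_floor hz2))
    have e3 := ht0 (Real.log x) h5
    have e4 := ht0 (Real.log z) (h5.trans (Real.log_le_log hx0 hz1))
    unfold phi at e3 e4
    rw [Real.exp_log hx0] at e3
    rw [Real.exp_log hz0] at e4
    have e5 : Real.log z - Real.log x ≤ Real.log lam := by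
      have := Real.log_le_log hz0 hz2
      rw [Real.log_mul (by linarith) hx0.ne'] at this
      linarith
    have hlz : Real.log x ≤ Real.log z := Real.log_le_log hx0 hz1
    have e6 : Real.log (Real.log z) - Real.log (Real.log x) ≤ Real.log lam / Real.log x := by
      rw [← Real.log_div (by linarith) hlx.ne']
      refine (Real.log_le_sub_one_of_pos (div_pos (by linarith) hlx)).trans ?_
      rw [div_sub_one hlx.ne']
      exact div_le_div_of_nonneg_right e5 hlx.le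
    have e7 : (r : ℝ) * (Real.log (Real.log z) - Real.log (Real.log x)) ≤
        r * (Real.log lam / Real.log x) := mul_le_mul_of_nonneg_left e6 (Nat.cast_nonneg r)
    have e8 : 0 ≤ (r : ℝ) * (Real.log (Real.log z) - Real.log (Real.log x)) :=
      mul_nonneg (Nat.cast_nonneg r) (sub_nonneg.2 (Real.log_le_log hlx hlz))
    have e9 := abs_le.1 e1
    have e10 := abs_le.1 e3
    have e11 := abs_le.1 e4
    rw [abs_le]
    constructor <;> linarith [e9.1, e9.2, e10.1, e10.2, e11.1, e11.2]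
  intro y hy1 hy2
  have hy0 : 0 < y := by linarith
  have f1 := abel_abs (c := fun n => (if GoodPrime a b n then ap a b n else 0) * (1 / (n : ℝ)))
    (w := fun n => (n : ℝ)) (K := 4 * δ) (m := ⌊x⌋₊) (fun n _ => by push_cast; linarith)
    (fun n _ => Nat.cast_nonneg n) ⌊y⌋₊ (Nat.floor_le_floor hy1) (fun j hj1 hj2 => by
      rcases eq_or_lt_of_le hj1 with h8 | h8
      · rw [← h8]
        exact key x le_rfl (by nlinarith)
      · have hj3 : (j : ℝ) ≤ y := (Nat.le_floor_iff hy0.le).1 hj2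
        have hj4 : x < j := (Nat.floor_lt hx0.le).1 h8
        have := key j hj4.le (hj3.trans hy2)
        rwa [Nat.floor_natCast] at this)
  have f2 : ∑ n ∈ Finset.Ioc ⌊x⌋₊ ⌊y⌋₊, ((if GoodPrime a b n then ap a b n else 0) *
      (1 / (n : ℝ))) * (n : ℝ) = inc a b ⌊x⌋₊ ⌊y⌋₊ := by
    rw [inc_eq]
    refine Finset.sum_congr rfl fun n hn => ?_
    have hn0 : (n : ℝ) ≠ 0 := by
      have := (Finset.mem_Ioc.1 hn).1
      exact_mod_cast (by omega : n ≠ 0)
    field_simp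
  rw [f2] at f1
  refine f1.trans ?_
  push_cast
  have f3 : (⌊y⌋₊ : ℝ) ≤ lam * x := (Nat.floor_le hy0.le).trans hy2
  have f4 : (⌊y⌋₊ : ℝ) + 1 ≤ 2 * (lam * x) := by nlinarith
  have f5 : 2 * (4 * δ) * ((⌊y⌋₊ : ℝ) + 1) ≤ 2 * (4 * δ) * (2 * (lam * x)) :=
    mul_le_mul_of_nonneg_left f4 (by positivity)
  refine f5.trans ?_
  rw [hδ]
  have f6 : 2 * (4 * (ε / (40 * lam))) * (2 * (lam * x)) = 16 / 40 * (ε * x) := by
    field_simp
    ring
  rw [f6]
  nlinarith [mul_pos hε hx0]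

end Pool.Agent.Q195.OSC
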